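import Pool.Agent.W117.GH.Stm

set_option autoImplicit false

open scoped ContDiff ComplexConjugate
open MeasureTheory Filter Topology Set

noncomputable section

namespace Pool.Agent.W150.GH

open Pool.Agent.W117.GH

lemma pd_smooth {v : ℂ → ℝ} (hv : ContDiff ℝ ∞ v) (j : Fin 2) : ContDiff ℝ ∞ (pd j v) := by
  have h1 : ContDiff ℝ ∞ (fderiv ℝ v) := hv.fderiv_right (by simp)
  exact h1.clm_apply contDiff_const

lemma normSq_smooth {g : ℂ → ℂ} (hg : ContDiff ℝ ∞ g) :
    ContDiff ℝ ∞ (fun z => Complex.normSq (g z)) := by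
  have h1 : (fun z => Complex.normSq (g z)) = fun z => (g z).re * (g z).re + (g z).im * (g z).im := by
    funext z
    rw [Complex.normSq_apply]
  rw [h1]
  have h2 : ContDiff ℝ ∞ (fun z => (g z).re) := Complex.reCLM.contDiff.comp hg
  have h3 : ContDiff ℝ ∞ (fun z => (g z).im) := Complex.imCLM.contDiff.comp hg
  exact (h2.mul h2).add (h3.mul h3)

lemma pd_phi {ε : ℝ} {g : ℂ → ℂ} {v : ℂ → ℝ} (hg : Differentiable ℂ g) (hv : ContDiff ℝ ∞ v)
    (j : Fin 2) (z : ℂ) :
    pd j (fun z => (ε : ℂ) * g z * ((Real.exp (v z / 2) : ℝ) : ℂ)) z =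
      (ε : ℂ) * ((Real.exp (v z / 2) : ℝ) : ℂ) *
        (dir j * deriv g z + g z * ((1 / 2 * pd j v z : ℝ) : ℂ)) := by
  have h1 : HasFDerivAt g ((ContinuousLinearMap.toSpanSingleton ℂ (deriv g z)).restrictScalars ℝ) z :=
    (hg z).hasDerivAt.hasFDerivAt.restrictScalars ℝ
  have h2 : HasFDerivAt v (fderiv ℝ v z) z :=
    ((hv.differentiable (by simp)) z).hasFDerivAt
  have h3 : HasFDerivAt (fun z => Real.exp (v z / 2))
      (Real.exp (v z / 2) • ((1 / 2 : ℝ) • fderiv ℝ v z)) z := by
    have h4 : HasFDerivAt (fun z => v z / 2) ((1 / 2 : ℝ) • fderiv ℝ v z) z := by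
      have := h2.const_mul (1 / 2 : ℝ)
      refine this.congr_of_eventuallyEq (Eventually.of_forall fun w => ?_)
      simp only
      ring
    exact h4.exp
  have h5 : HasFDerivAt (fun z => ((Real.exp (v z / 2) : ℝ) : ℂ))
      (Complex.ofRealCLM.comp (Real.exp (v z / 2) • ((1 / 2 : ℝ) • fderiv ℝ v z))) z :=
    (Complex.ofRealCLM.hasFDerivAt).comp z h3
  have h6 := (h1.const_mul (ε : ℂ)).mul h5
  have h7 : fderiv ℝ (fun z => (ε : ℂ) * g z * ((Real.exp (v z / 2) : ℝ) : ℂ)) z = _ := h6.fderiv
  unfold pd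
  rw [h7]
  simp only [add_apply, smul_apply,
    ContinuousLinearMap.comp_apply, ContinuousLinearMap.coe_restrictScalars',
    ContinuousLinearMap.toSpanSingleton_apply, Complex.ofRealCLM_apply, smul_eq_mul]
  push_cast
  ring

theorem main : PropSD := by
  intro ε a g v hε hg hv hpde
  have hgs : ContDiff ℝ ∞ g := (hg.contDiff (n := ∞)).restrict_scalars ℝ
  have hD : ∀ j z, (fields ε a g v).D j (fields ε a g v).phi z =
      (ε : ℂ) * ((Real.exp (v z / 2) : ℝ) : ℂ) *
        (dir j * deriv g z + g z * ((1 / 2 * pd j v z : ℝ) : ℂ)) -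
      Complex.I * (((fields ε a g v).A j z : ℝ) : ℂ) *
        ((ε : ℂ) * g z * ((Real.exp (v z / 2) : ℝ) : ℂ)) := by
    intro j z
    have := pd_phi (ε := ε) hg hv j z
    unfold Fields.D
    rw [← this]
    rfl
  have hA0 : ∀ z, (fields ε a g v).A 0 z = 1 / 2 * pd 1 v z := fun z => by
    simp [fields]
  have hA1 : ∀ z, (fields ε a g v).A 1 z = -(1 / 2) * pd 0 v z := fun z => by
    simp [fields]
  have hd0 : dir 0 = 1 := rfl
  have hd1 : dir 1 = Complex.I := rfl
  have hI := Complex.I_mul_I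
  refine ⟨⟨?_, ?_, ?_, ?_, ?_⟩, ?_⟩
  · exact (contDiff_const.mul (hv.sub ((normSq_smooth hgs).mul (Real.contDiff_exp.comp hv)))).sub
      contDiff_const
  · intro j
    have h1 : (fields ε a g v).A j = if j = 0 then fun z => 1 / 2 * pd 1 v z else
        fun z => -(1 / 2) * pd 0 v z := by
      funext z
      by_cases h : j = 0 <;> simp [fields, h]
    rw [h1]
    by_cases h : j = 0
    · rw [if_pos h]
      exact contDiff_const.mul (pd_smooth hv 1)
    · rw [if_neg h]
      exact contDiff_const.mul (pd_smooth hv 0)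
  · have h1 : ContDiff ℝ ∞ (fun z => Real.exp (v z / 2)) :=
      Real.contDiff_exp.comp (hv.div_const 2)
    have h2 : ContDiff ℝ ∞ (fun z => ((Real.exp (v z / 2) : ℝ) : ℂ)) :=
      Complex.ofRealCLM.contDiff.comp h1
    exact (contDiff_const.mul hgs).mul h2
  · intro z
    rw [hD, hD, hA0, hA1, hd0, hd1]
    generalize ((Real.exp (v z / 2) : ℝ) : ℂ) = E
    push_cast
    linear_combination ((ε : ℂ) * E * g z * (1 / 2) * ((pd 1 v z : ℝ) : ℂ)) * hI
  · intro z
    have e1 : (fields ε a g v).F 0 1 z = -(1 / 2) * Lap v z := by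
      unfold Fields.F
      have h1 : pd 0 ((fields ε a g v).A 1) z = -(1 / 2) * pd 0 (pd 0 v) z := by
        have h2 : (fields ε a g v).A 1 = fun z => -(1 / 2) * pd 0 v z := funext hA1
        rw [h2]
        unfold pd
        have h3 := (((pd_smooth hv 0).differentiable (by simp)) z).hasFDerivAt.const_mul (-(1 / 2) : ℝ)
        have h4 := h3.fderiv
        unfold pd at h4
        rw [h4]
        simp
      have h1' : pd 1 ((fields ε a g v).A 0) z = 1 / 2 * pd 1 (pd 1 v) z := by
        have h2 : (fields ε a g v).A 0 = fun z => 1 / 2 * pd 1 v z := funext hA0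
        rw [h2]
        unfold pd
        have h3 := (((pd_smooth hv 1).differentiable (by simp)) z).hasFDerivAt.const_mul (1 / 2 : ℝ)
        have h4 := h3.fderiv
        unfold pd at h4
        rw [h4]
        simp
      rw [h1, h1']
      unfold Lap
      ring
    rw [e1, hpde z]
    have e2 : Real.exp ((fields ε a g v).eta z) =
        Real.exp (a * (v z - Complex.normSq (g z) * Real.exp (v z))) / ε ^ 2 := by
      change Real.exp (a * (v z - Complex.normSq (g z) * Real.exp (v z)) - 2 * Real.log ε) = _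
      rw [Real.exp_sub]
      congr 1
      rw [two_mul, Real.exp_add, Real.exp_log hε]
      ring
    have e3 : Complex.normSq ((fields ε a g v).phi z) =
        ε ^ 2 * Complex.normSq (g z) * Real.exp (v z) := by
      change Complex.normSq ((ε : ℂ) * g z * ((Real.exp (v z / 2) : ℝ) : ℂ)) = _
      rw [Complex.normSq_mul, Complex.normSq_mul, Complex.normSq_ofReal, Complex.normSq_ofReal]
      have h1 : Real.exp (v z / 2) * Real.exp (v z / 2) = Real.exp (v z) := by
        rw [← Real.exp_add]
        congr 1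
        ring
      rw [← h1]
      ring
    rw [e2, e3]
    field_simp
  · intro z
    rw [hD, hA0, hd0]
    push_cast
    ring

end Pool.Agent.W150.GH
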